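import Pool.Agent.Helper59.MB.Goals3

/-!
# Project MB (MP_49a1ce_an), goal ERG: the powers of a Bernoulli shift are ergodic
-/

set_option autoImplicit false

open MeasureTheory ProbabilityTheory Filter Topology
open scoped symmDiff

namespace Pool.Agent.Helper44.MB

open Pool.Agent.Helper59.MB

/-- Translation by `k` of two-sided sequences. -/
def tr (k : ℤ) (w : ℤ → A) : ℤ → A := fun n ↦ w (n + k)

theorem shiftZ_iterate (k : ℕ) : (shiftZ A)^[k] = tr (k : ℤ) := by
  induction k with
  | zero =>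
    funext w n
    simp [tr]
  | succ k ih =>
    rw [Function.iterate_succ', ih]
    funext w n
    simp only [Function.comp, shiftZ, tr]
    congr 1
    push_cast
    ring

instance (m : Measure A) [IsProbabilityMeasure m] : IsProbabilityMeasure (Be m) := by
  unfold Be
  infer_instance

theorem tr_mp (m : Measure A) [IsProbabilityMeasure m] (k : ℤ) :
    MeasurePreserving (tr k) (Be m) (Be m) where
  measurable := by
    rw [measurable_pi_iff]
    intro n
    exact measurable_pi_apply (n + k)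
  map_eq := Measure.map_infinitePi_infinitePi_of_inj (P := fun _ : ℤ ↦ m) (add_left_injective k)

/-- A cylinder is independent of its translates far away. -/
theorem cyl_indep (m : Measure A) [IsProbabilityMeasure m] (s : Finset ℤ)
    (B : Set ((i : s) → A)) (hB : MeasurableSet B) (k : ℤ) (hk : ∀ i ∈ s, i + k ∉ s) :
    Be m (cylinder (α := fun _ : ℤ ↦ A) s B ∩ tr k ⁻¹' cylinder (α := fun _ : ℤ ↦ A) s B) =
      Be m (cylinder (α := fun _ : ℤ ↦ A) s B) * Be m (cylinder (α := fun _ : ℤ ↦ A) s B) := by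
  classical
  have hind : iIndepFun (fun (i : ℤ) (w : ℤ → A) ↦ w i) (Be m) :=
    iIndepFun_infinitePi (P := fun _ : ℤ ↦ m) (X := fun _ a ↦ a) (fun _ ↦ measurable_id)
  let T : Finset ℤ := s.image fun i ↦ i + k
  have hT : ∀ i ∈ s, i + k ∈ T := fun i hi ↦ Finset.mem_image.mpr ⟨i, hi, rfl⟩
  have hsT : Disjoint s T := by
    rw [Finset.disjoint_right]
    intro j hj
    obtain ⟨i, hi, rfl⟩ := Finset.mem_image.mp hj
    exact hk i hi
  have h1 := hind.indepFun_finset s T hsT (fun i ↦ measurable_pi_apply i)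
  let ψ : ((i : T) → A) → ((i : s) → A) := fun v i ↦ v ⟨(i : ℤ) + k, hT i i.2⟩
  have hψ : Measurable ψ := by
    rw [measurable_pi_iff]
    intro i
    exact measurable_pi_apply _
  have h2 := h1.comp (φ := id) measurable_id hψ
  have h3 := h2.measure_inter_preimage_eq_mul B B hB hB
  have e1 : ((id : ((i : s) → A) → ((i : s) → A)) ∘ fun (a : ℤ → A) (i : s) ↦ a i) ⁻¹' B =
      cylinder (α := fun _ : ℤ ↦ A) s B := rfl
  have e2 : (ψ ∘ fun (a : ℤ → A) (i : T) ↦ a i) ⁻¹' B =
      tr k ⁻¹' cylinder (α := fun _ : ℤ ↦ A) s B := rfl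
  rw [e1, e2] at h3
  rw [h3, (tr_mp m k).measure_preimage]
  exact (MeasurableSet.of_mem_measurableCylinders
    (cylinder_mem_measurableCylinders (α := fun _ : ℤ ↦ A) s B hB)).nullMeasurableSet

theorem cyl_dense (m : Measure A) [IsProbabilityMeasure m] :
    (Be m).MeasureDense (measurableCylinders fun _ : ℤ ↦ A) :=
  Measure.MeasureDense.of_generateFrom_isSetAlgebra_finite (Be m)
    { empty_mem := empty_mem_measurableCylinders _
      compl_mem := fun _ hs ↦ compl_mem_measurableCylinders hs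
      union_mem := fun _ _ hs ht ↦ union_mem_measurableCylinders hs ht }
    generateFrom_measurableCylinders.symm

theorem t_ERG : S_ERG := by
  classical
  intro m _ q hq
  rw [shiftZ_iterate]
  refine ⟨tr_mp m q, ⟨fun S hS hinv ↦ ?_⟩⟩
  -- invariance under all powers
  have hinvn : ∀ n : ℕ, tr ((n * q : ℕ) : ℤ) ⁻¹' S = S := by
    intro n
    induction n with
    | zero =>
      have : tr ((0 * q : ℕ) : ℤ) = id := by
        funext w i
        simp [tr]
      rw [this]
      rfl
    | succ n ih =>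
      have : tr (((n + 1) * q : ℕ) : ℤ) = tr (q : ℤ) ∘ tr ((n * q : ℕ) : ℤ) := by
        funext w i
        simp only [tr, Function.comp]
        congr 1
        push_cast
        ring
      rw [this, Set.preimage_comp, hinv, ih]
  have key : ∀ ε : ℝ, 0 < ε → |(Be m).real S - (Be m).real S * (Be m).real S| ≤ 4 * ε := by
    intro ε hε
    obtain ⟨C, hC, hCε⟩ := (cyl_dense m).approx S hS (measure_ne_top _ _) ε hε
    have hCm : MeasurableSet C := MeasurableSet.of_mem_measurableCylinders hC
    obtain ⟨s, B, hB, rfl⟩ := (mem_measurableCylinders C).mp hC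
    -- a large translate
    obtain ⟨R, hR⟩ : ∃ R : ℕ, ∀ i ∈ s, |i| ≤ R := by
      refine ⟨∑ i ∈ s, i.natAbs, fun i hi ↦ ?_⟩
      have h1 : i.natAbs ≤ ∑ i ∈ s, i.natAbs :=
        Finset.single_le_sum (f := fun i : ℤ ↦ i.natAbs) (fun _ _ ↦ Nat.zero_le _) hi
      rw [Int.abs_eq_natAbs]
      exact_mod_cast h1
    obtain ⟨n, hn⟩ : ∃ n : ℕ, n = 2 * R + 1 := ⟨_, rfl⟩
    obtain ⟨k, hk⟩ : ∃ k : ℤ, k = ((n * q : ℕ) : ℤ) := ⟨_, rfl⟩
    have hkR : 2 * (R : ℤ) + 1 ≤ k := by
      rw [hk, hn]
      have : (2 * R + 1) * 1 ≤ (2 * R + 1) * q := Nat.mul_le_mul_left _ hq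
      exact_mod_cast (by simpa using this)
    have hks : ∀ i ∈ s, i + k ∉ s := by
      intro i hi h
      have h1 := abs_le.mp (hR i hi)
      have h2 := abs_le.mp (hR _ h)
      omega
    have hind := cyl_indep m s B hB k hks
    have hindr : (Be m).real (cylinder (α := fun _ : ℤ ↦ A) s B ∩
        tr k ⁻¹' cylinder (α := fun _ : ℤ ↦ A) s B) =
        (Be m).real (cylinder (α := fun _ : ℤ ↦ A) s B) *
          (Be m).real (cylinder (α := fun _ : ℤ ↦ A) s B) := by
      rw [measureReal_def, hind, ENNReal.toReal_mul, measureReal_def]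
    generalize cylinder (α := fun _ : ℤ ↦ A) s B = C at hC hCε hCm hindr
    have hm1 : (Be m).real (S ∆ C) ≤ ε := by
      rw [measureReal_def]
      exact ENNReal.toReal_le_of_le_ofReal hε.le hCε.le
    have hTS : tr k ⁻¹' S = S := by
      rw [hk]
      exact hinvn n
    have hm2 : (Be m).real (S ∆ (tr k ⁻¹' C)) ≤ ε := by
      have e : S ∆ (tr k ⁻¹' C) = tr k ⁻¹' (S ∆ C) := by
        rw [Set.preimage_symmDiff, hTS]
      rw [e, (tr_mp m k).measureReal_preimage (hS.symmDiff hCm).nullMeasurableSet]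
      exact hm1
    have hm3 : (Be m).real (S ∆ (C ∩ tr k ⁻¹' C)) ≤ ε + ε := by
      have hsub : S ∆ (C ∩ tr k ⁻¹' C) ⊆ (S ∆ C) ∪ (S ∆ (tr k ⁻¹' C)) := by
        intro w hw
        simp only [Set.mem_symmDiff, Set.mem_inter_iff, Set.mem_union] at hw ⊢
        tauto
      calc (Be m).real (S ∆ (C ∩ tr k ⁻¹' C)) ≤
          (Be m).real ((S ∆ C) ∪ (S ∆ (tr k ⁻¹' C))) := measureReal_mono hsub
        _ ≤ (Be m).real (S ∆ C) + (Be m).real (S ∆ (tr k ⁻¹' C)) := measureReal_union_le _ _
        _ ≤ ε + ε := add_le_add hm1 hm2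
    have hCm' : MeasurableSet (tr k ⁻¹' C) := (tr_mp m k).measurable hCm
    have a1 := (abs_measureReal_sub_le_measureReal_symmDiff (μ := Be m)
      hS.nullMeasurableSet hCm.nullMeasurableSet).trans hm1
    have a2 := (abs_measureReal_sub_le_measureReal_symmDiff (μ := Be m)
      hS.nullMeasurableSet (hCm.inter hCm').nullMeasurableSet).trans hm3
    rw [hindr] at a2
    have b1 : 0 ≤ (Be m).real S := measureReal_nonneg
    have b2 : (Be m).real S ≤ 1 := measureReal_le_one
    have b3 : 0 ≤ (Be m).real C := measureReal_nonneg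
    have b4 : (Be m).real C ≤ 1 := measureReal_le_one
    rw [abs_le] at a1 a2 ⊢
    constructor <;> nlinarith [a1.1, a1.2, a2.1, a2.2]
  have h01 : (Be m).real S = 0 ∨ (Be m).real S = 1 := by
    have h0 : (Be m).real S - (Be m).real S * (Be m).real S = 0 := by
      rw [← abs_eq_zero]
      refine le_antisymm (le_of_forall_pos_le_add fun ε hε ↦ ?_) (abs_nonneg _)
      have := key (ε / 4) (by positivity)
      linarith
    have h1 : (Be m).real S * (1 - (Be m).real S) = 0 := by linarith
    rcases mul_eq_zero.mp h1 with h | h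
    · exact Or.inl h
    · exact Or.inr (by linarith)
  rw [eventuallyConst_set']
  rcases h01 with h | h
  · left
    rw [ae_eq_empty]
    rwa [measureReal_eq_zero_iff] at h
  · right
    rw [ae_eq_univ]
    rw [← measureReal_eq_zero_iff, probReal_compl_eq_one_sub hS, h, sub_self]

end Pool.Agent.Helper44.MB
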