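import Pool.Agent.Helper59.MB.Goals2

/-!
# Project MB (MP_49a1ce_an), goal KE5: a random choice of letters

The density `H = ∏ (1 + D n * g (w n) / 2)` against independent letters.
-/

set_option autoImplicit false

open MeasureTheory ProbabilityTheory Filter Topology Finset

namespace Pool.Agent.Helper44.MB

open Pool.Agent.Helper59.MB

noncomputable section

/-- `F` depends on the coordinates in `S` only. -/
def Dep (S : Finset ℕ) (F : Wd → ℝ) : Prop := ∀ w w' : Wd, (∀ i ∈ S, w i = w' i) → F w = F w'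

/-- Extension of a word on a finite set. -/
def exw (S : Finset ℕ) (v : (i : S) → A) : Wd :=
  fun i ↦ if h : i ∈ S then v ⟨i, h⟩ else fun _ ↦ false

theorem measurable_exw (S : Finset ℕ) : Measurable (exw S) := by
  rw [measurable_pi_iff]
  intro i
  by_cases h : i ∈ S
  · have : (fun v : (i : S) → A ↦ exw S v i) = fun v ↦ v ⟨i, h⟩ := by
      funext v
      simp [exw, h]
    rw [this]
    exact measurable_pi_apply _
  · have : (fun v : (i : S) → A ↦ exw S v i) = fun _ ↦ fun _ ↦ false := by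
      funext v
      simp [exw, h]
    rw [this]
    exact measurable_const

/-- Factorization of the integral of a product of functions of disjoint sets of letters. -/
theorem fact (m : Measure A) [IsProbabilityMeasure m] (S T : Finset ℕ) (hST : Disjoint S T)
    (F G : Wd → ℝ) (hF : Measurable F) (hG : Measurable G) (hFS : Dep S F) (hGT : Dep T G) :
    ∫ w, F w * G w ∂(Q m) = (∫ w, F w ∂(Q m)) * ∫ w, G w ∂(Q m) := by
  have hind : iIndepFun (fun (i : ℕ) (w : Wd) ↦ w i) (Q m) :=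
    iIndepFun_infinitePi (P := fun _ : ℕ ↦ m) (X := fun _ a ↦ a) (fun _ ↦ measurable_id)
  have h1 := hind.indepFun_finset S T hST (fun i ↦ measurable_pi_apply i)
  have h2 := h1.comp (φ := fun v ↦ F (exw S v)) (ψ := fun v ↦ G (exw T v))
    (hF.comp (measurable_exw S)) (hG.comp (measurable_exw T))
  have e1 : ((fun v ↦ F (exw S v)) ∘ fun (a : Wd) (i : S) ↦ a i) = F := by
    funext w
    refine hFS _ _ fun i hi ↦ ?_
    simp [exw, hi]
  have e2 : ((fun v ↦ G (exw T v)) ∘ fun (a : Wd) (i : T) ↦ a i) = G := by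
    funext w
    refine hGT _ _ fun i hi ↦ ?_
    simp [exw, hi]
  rw [e1, e2] at h2
  exact h2.integral_fun_mul_eq_mul_integral hF.aestronglyMeasurable hG.aestronglyMeasurable

section dens

variable {m : Measure A} [IsProbabilityMeasure m] {g : A → ℝ} {D : ℕ → ℝ}

/-- One factor of the density. -/
def fc (g : A → ℝ) (D : ℕ → ℝ) (n : ℕ) (w : Wd) : ℝ := 1 + D n * g (w n) / 2

/-- The density. -/
def HH (g : A → ℝ) (D : ℕ → ℝ) (T : Finset ℕ) (w : Wd) : ℝ := ∏ n ∈ T, fc g D n w

theorem fc_meas (hg : Measurable g) (n : ℕ) : Measurable (fc g D n) := by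
  have h1 : Measurable fun w : Wd ↦ g (w n) := hg.comp (measurable_pi_apply n)
  exact ((h1.const_mul (D n)).div_const 2).const_add 1

theorem HH_meas (hg : Measurable g) (T : Finset ℕ) : Measurable (HH g D T) :=
  Finset.measurable_fun_prod T fun n _ ↦ fc_meas hg n

theorem mul_bd {x y : ℝ} (hx : |x| ≤ 2) (hy : |y| ≤ 1) : |x * y / 2| ≤ 1 := by
  rw [abs_div, abs_mul, abs_two]
  have : |x| * |y| ≤ 2 * 1 := mul_le_mul hx hy (abs_nonneg _) (by norm_num)
  linarith

theorem fc_bd (hg1 : ∀ a, |g a| ≤ 1) (hD : ∀ n, |D n| ≤ 2) (n : ℕ) (w : Wd) :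
    0 ≤ fc g D n w ∧ fc g D n w ≤ 2 := by
  have h := abs_le.mp (mul_bd (hD n) (hg1 (w n)))
  unfold fc
  constructor <;> linarith [h.1, h.2]

theorem HH_bd (hg1 : ∀ a, |g a| ≤ 1) (hD : ∀ n, |D n| ≤ 2) (T : Finset ℕ) (w : Wd) :
    0 ≤ HH g D T w ∧ HH g D T w ≤ 2 ^ T.card := by
  constructor
  · exact Finset.prod_nonneg fun n _ ↦ (fc_bd hg1 hD n w).1
  · have := Finset.prod_le_prod (s := T) (f := fun n ↦ fc g D n w) (g := fun _ ↦ (2 : ℝ))
      (fun n _ ↦ (fc_bd hg1 hD n w).1) (fun n _ ↦ (fc_bd hg1 hD n w).2)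
    rwa [Finset.prod_const] at this

theorem HH_dep (T : Finset ℕ) : Dep T (HH g D T) := by
  intro w w' h
  refine Finset.prod_congr rfl fun n hn ↦ ?_
  rw [fc, fc, h n hn]

instance : IsProbabilityMeasure (Q m) := by
  unfold Q
  infer_instance

theorem int_of_bd {F : Wd → ℝ} (hF : Measurable F) (c : ℝ) (hc : ∀ w, |F w| ≤ c) :
    Integrable F (Q m) :=
  Integrable.of_bound hF.aestronglyMeasurable c (Eventually.of_forall hc)

theorem eval_int (n : ℕ) {f : A → ℝ} (hf : Measurable f) :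
    ∫ w, f (w n) ∂(Q m) = ∫ a, f a ∂m := by
  have h := measurePreserving_eval_infinitePi (fun _ : ℕ ↦ m) n
  have h2 := integral_map (μ := Measure.infinitePi fun _ : ℕ ↦ m) (f := f)
    h.measurable.aemeasurable hf.aestronglyMeasurable
  rw [h.map_eq] at h2
  exact h2.symm

theorem fc_int (hg : Measurable g) (hg1 : ∀ a, |g a| ≤ 1) (hg0 : ∫ a, g a ∂m = 0) (n : ℕ) :
    ∫ w, fc g D n w ∂(Q m) = 1 := by
  have h1 : Integrable (fun w : Wd ↦ g (w n)) (Q m) :=
    int_of_bd (hg.comp (measurable_pi_apply n)) 1 fun w ↦ hg1 _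
  have e : ∀ w, fc g D n w = 1 + (D n / 2) * g (w n) := fun w ↦ by rw [fc]; ring
  simp_rw [e]
  rw [integral_add (integrable_const _) (h1.const_mul _), integral_const_mul, eval_int n hg, hg0,
    mul_zero, add_zero]
  simp

theorem HH_int (hg : Measurable g) (hg1 : ∀ a, |g a| ≤ 1) (hg0 : ∫ a, g a ∂m = 0)
    (T : Finset ℕ) : ∫ w, HH g D T w ∂(Q m) = 1 := by
  classical
  induction T using Finset.induction_on with
  | empty => simp [HH]
  | insert a T ha ih =>
    have e : ∀ w, HH g D (insert a T) w = fc g D a w * HH g D T w := fun w ↦ by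
      rw [HH, Finset.prod_insert ha, HH]
    simp_rw [e]
    rw [fact m {a} T (by simpa using ha) _ _ (fc_meas hg a) (HH_meas hg T) ?_ (HH_dep T),
      fc_int hg hg1 hg0, ih, one_mul]
    intro w w' h
    rw [fc, fc, h a (by simp)]

/-- Only the factors of the letters which occur in `F` matter. -/
theorem HH_red (hg : Measurable g) (hg1 : ∀ a, |g a| ≤ 1) (hg0 : ∫ a, g a ∂m = 0)
    (S T : Finset ℕ) (hST : S ⊆ T) (F : Wd → ℝ) (hF : Measurable F) (hFS : Dep S F) :
    ∫ w, F w * HH g D T w ∂(Q m) = ∫ w, F w * HH g D S w ∂(Q m) := by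
  classical
  have e : ∀ w, F w * HH g D T w = (F w * HH g D S w) * HH g D (T \ S) w := by
    intro w
    rw [mul_assoc, HH, HH, HH, mul_comm (∏ n ∈ S, fc g D n w), Finset.prod_sdiff hST]
  simp_rw [e]
  have hd : Dep S (fun w ↦ F w * HH g D S w) := by
    intro w w' h
    change F w * HH g D S w = F w' * HH g D S w'
    rw [hFS w w' h, HH_dep S w w' h]
  rw [fact m S (T \ S) Finset.disjoint_sdiff (fun w ↦ F w * HH g D S w) _
    (hF.mul (HH_meas hg S)) (HH_meas hg _) hd (HH_dep _), HH_int hg hg1 hg0, mul_one]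

end dens

theorem t_KE5 : S_KE5 := by
  intro m _ g hg hg1 hg0 N l D u C κ Z hD hu hC hCb hCl hZ
  classical
  -- the terms
  have hC0 : 0 ≤ ∫ w, C w ∂(Q m) := integral_nonneg fun w ↦ (hCb w).1
  have hCi : Integrable C (Q m) := int_of_bd hC κ fun w ↦ by
    rw [abs_of_nonneg (hCb w).1]; exact (hCb w).2
  have hCκ : ∫ w, C w ∂(Q m) ≤ κ := by
    calc ∫ w, C w ∂(Q m) ≤ ∫ _, κ ∂(Q m) :=
          integral_mono hCi (integrable_const _) fun w ↦ (hCb w).2
      _ = κ := by simp
  have hZ0 : 0 ≤ Z := (abs_nonneg _).trans (hZ (fun _ ↦ 0) (by simp))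
  let H : Wd → ℝ := HH g D (Icc 1 N)
  have hHm : Measurable H := HH_meas hg _
  have hHb : ∀ w, 0 ≤ H w ∧ H w ≤ 2 ^ (Icc 1 N).card := HH_bd hg1 hD _
  have hH1 : ∫ w, H w ∂(Q m) = 1 := HH_int hg hg1 hg0 _
  have hmulb : ∀ F : Wd → ℝ, Measurable F → ∀ c : ℝ, (∀ w, |F w| ≤ c) →
      Integrable (fun w ↦ F w * H w) (Q m) := by
    intro F hF c hc
    refine int_of_bd (hF.mul hHm) (c * 2 ^ (Icc 1 N).card) fun w ↦ ?_
    rw [abs_mul, abs_of_nonneg (hHb w).1]
    exact mul_le_mul (hc w) (hHb w).2 (hHb w).1 ((abs_nonneg _).trans (hc w))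
  -- first moments
  have hgw : ∀ n : ℕ, Measurable fun w : Wd ↦ g (w n) := fun n ↦ hg.comp (measurable_pi_apply n)
  have hg2i : Integrable (fun a ↦ g a ^ 2) m :=
    Integrable.of_bound (hg.pow_const 2).aestronglyMeasurable 1 (Eventually.of_forall fun a ↦ by
      rw [Real.norm_eq_abs, abs_pow]
      exact pow_le_one₀ (abs_nonneg _) (hg1 a))
  have hgi : Integrable g m :=
    Integrable.of_bound hg.aestronglyMeasurable 1 (Eventually.of_forall hg1)
  have hmom : ∀ n ∈ Icc 1 N, ∫ w, g (w n) * H w ∂(Q m) = D n * ((∫ a, g a ^ 2 ∂m) / 2) := by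
    intro n hn
    have h1 := HH_red (m := m) (D := D) hg hg1 hg0 {n} (Icc 1 N) (by simpa using hn)
      (fun w ↦ g (w n)) (hgw n) (by
        intro w w' h
        change g (w n) = g (w' n)
        rw [h n (by simp)])
    have e : ∀ w : Wd, g (w n) * HH g D {n} w =
        (fun a ↦ g a + D n / 2 * g a ^ 2) (w n) := by
      intro w
      rw [HH, Finset.prod_singleton, fc]
      ring
    change ∫ w, g (w n) * HH g D (Icc 1 N) w ∂(Q m) = _
    rw [h1]
    simp_rw [e]
    rw [eval_int (m := m) n (f := fun a ↦ g a + D n / 2 * g a ^ 2)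
      (hg.add ((hg.pow_const 2).const_mul _)), integral_add hgi (hg2i.const_mul _),
      integral_const_mul, hg0]
    ring
  -- the shifts
  have hfrom : ∀ n : ℕ, Measurable fun w : Wd ↦ from' n w := fun n ↦ by
    rw [measurable_pi_iff]
    intro i
    exact measurable_pi_apply (n + i)
  have hshift : ∀ n : ℕ, (Q m).map (fun w : Wd ↦ from' n w) = Q m := fun n ↦
    Measure.map_infinitePi_infinitePi_of_inj (P := fun _ : ℕ ↦ m) (add_right_injective n)
  let K : ℕ → Wd → ℝ := fun n w ↦ ∏ i ∈ range l, (1 + D (n + i) * g (w i) / 2)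
  have hKm : ∀ n, Measurable (K n) := fun n ↦ Finset.measurable_fun_prod _ fun i _ ↦
    (((hgw i).const_mul (D (n + i))).div_const 2).const_add 1
  have hKb : ∀ n w, |K n w| ≤ 2 ^ l := by
    intro n w
    rw [Finset.abs_prod]
    have := Finset.prod_le_prod (s := range l) (f := fun i ↦ |1 + D (n + i) * g (w i) / 2|)
      (g := fun _ ↦ (2 : ℝ)) (fun _ _ ↦ abs_nonneg _) (fun i _ ↦ by
        have h := abs_le.mp (mul_bd (hD (n + i)) (hg1 (w i)))
        rw [abs_le]
        constructor <;> linarith [h.1, h.2])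
    rwa [Finset.prod_const, card_range] at this
  have hsec : ∀ n ∈ Icc 1 (N - l), ∫ w, C (from' n w) * H w ∂(Q m) =
      ∫ w, C w * K n w ∂(Q m) := by
    intro n hn
    rw [mem_Icc] at hn
    let S : Finset ℕ := (range l).image fun i ↦ n + i
    have hS : ∀ i < l, n + i ∈ S := fun i hi ↦
      mem_image.mpr ⟨i, mem_range.mpr hi, rfl⟩
    have hST : S ⊆ Icc 1 N := by
      intro j hj
      obtain ⟨i, hi, rfl⟩ := mem_image.mp hj
      rw [mem_range] at hi
      rw [mem_Icc]
      omega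
    have h1 := HH_red (m := m) (D := D) hg hg1 hg0 S (Icc 1 N) hST
      (fun w ↦ C (from' n w)) (hC.comp (hfrom n)) (by
        intro w w' h
        refine hCl _ _ fun i hi ↦ ?_
        exact h _ (hS i hi))
    have e : ∀ w : Wd, C (from' n w) * HH g D S w = (fun v ↦ C v * K n v) (from' n w) := by
      intro w
      change C (from' n w) * HH g D S w = C (from' n w) * K n (from' n w)
      congr 1
      change ∏ j ∈ (range l).image (fun i ↦ n + i), fc g D j w = _
      rw [Finset.prod_image (fun a _ b _ h ↦ by simpa using h)]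
      rfl
    change ∫ w, C (from' n w) * HH g D (Icc 1 N) w ∂(Q m) = _
    rw [h1]
    simp_rw [e]
    have h2 := integral_map (μ := Q m) (hfrom n).aemeasurable
      (f := fun v ↦ C v * K n v) (hC.mul (hKm n)).aestronglyMeasurable
    rw [hshift n] at h2
    exact h2.symm
  -- the sum of the second kind
  have hsum2 : ∑ n ∈ Icc 1 (N - l), ∫ w, C w * K n w ∂(Q m) ≤
      N * ∫ w, C w ∂(Q m) + κ * Z := by
    have hint : ∀ n, Integrable (fun w ↦ C w * K n w) (Q m) := fun n ↦
      int_of_bd (hC.mul (hKm n)) (κ * 2 ^ l) fun w ↦ by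
        rw [abs_mul, abs_of_nonneg (hCb w).1]
        exact mul_le_mul (hCb w).2 (hKb n w) (abs_nonneg _) ((hCb w).1.trans (hCb w).2)
    rw [← integral_finsetSum _ fun n _ ↦ hint n]
    have hpt : ∀ w, ∑ n ∈ Icc 1 (N - l), C w * K n w ≤ C w * (N + Z) := by
      intro w
      rw [← Finset.mul_sum]
      refine mul_le_mul_of_nonneg_left ?_ (hCb w).1
      have h1 := (abs_le.mp (hZ (fun i ↦ g (w i)) fun i ↦ hg1 _)).2
      rw [Finset.sum_sub_distrib, Finset.sum_const, Nat.card_Icc, nsmul_eq_mul, mul_one] at h1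
      have h2 : ((N - l + 1 - 1 : ℕ) : ℝ) ≤ N := by
        exact_mod_cast (show N - l + 1 - 1 ≤ N by omega)
      change ∑ n ∈ Icc 1 (N - l), ∏ i ∈ range l, (1 + D (n + i) * g (w i) / 2) ≤ _
      linarith
    calc ∫ w, ∑ n ∈ Icc 1 (N - l), C w * K n w ∂(Q m) ≤ ∫ w, C w * (N + Z) ∂(Q m) :=
          integral_mono (integrable_finsetSum _ fun n _ ↦ hint n) (hCi.mul_const _) hpt
      _ = (∫ w, C w ∂(Q m)) * (N + Z) := integral_mul_const _ _
      _ ≤ N * ∫ w, C w ∂(Q m) + κ * Z := by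
          have := mul_le_mul_of_nonneg_right hCκ hZ0
          nlinarith
  -- conclusion
  by_contra hcon
  push Not at hcon
  obtain ⟨c, hc⟩ : ∃ c, c = (∫ a, g a ^ 2 ∂m) / 2 * ∑ n ∈ Icc 1 N, D n * u n -
    N * ∫ w, C w ∂(Q m) - κ * Z := ⟨_, rfl⟩
  let F : Wd → ℝ := fun w ↦ ∑ n ∈ Icc 1 N, g (w n) * u n - ∑ n ∈ Icc 1 (N - l), C (from' n w)
  have hFm : Measurable F :=
    (Finset.measurable_fun_sum _ fun n _ ↦ (hgw n).mul_const (u n)).sub
      (Finset.measurable_fun_sum _ fun n _ ↦ hC.comp (hfrom n))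
  have hFc : ∀ w, F w < c := fun w ↦ by rw [hc]; exact hcon w
  have hi1 : ∀ n, Integrable (fun w ↦ (g (w n) * u n) * H w) (Q m) := fun n ↦
    hmulb _ ((hgw n).mul_const (u n)) 1 fun w ↦ by
      rw [abs_mul]
      exact mul_le_one₀ (hg1 _) (abs_nonneg _) (hu n)
  have hi2 : ∀ n, Integrable (fun w ↦ C (from' n w) * H w) (Q m) := fun n ↦
    hmulb _ (hC.comp (hfrom n)) κ fun w ↦ by
      rw [abs_of_nonneg (hCb _).1]; exact (hCb _).2
  have hFH : ∀ w, F w * H w = ∑ n ∈ Icc 1 N, (g (w n) * u n) * H w -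
      ∑ n ∈ Icc 1 (N - l), C (from' n w) * H w := fun w ↦ by
    change (∑ n ∈ Icc 1 N, g (w n) * u n - ∑ n ∈ Icc 1 (N - l), C (from' n w)) * H w = _
    rw [sub_mul, Finset.sum_mul, Finset.sum_mul]
  have hFHi : Integrable (fun w ↦ F w * H w) (Q m) := by
    simp_rw [hFH]
    exact (integrable_finsetSum _ fun n _ ↦ hi1 n).sub (integrable_finsetSum _ fun n _ ↦ hi2 n)
  have hFHint : c ≤ ∫ w, F w * H w ∂(Q m) := by
    simp_rw [hFH]
    rw [integral_sub (integrable_finsetSum _ fun n _ ↦ hi1 n)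
      (integrable_finsetSum _ fun n _ ↦ hi2 n), integral_finsetSum _ fun n _ ↦ hi1 n,
      integral_finsetSum _ fun n _ ↦ hi2 n, Finset.sum_congr rfl hsec]
    have e1 : ∑ n ∈ Icc 1 N, ∫ w, (g (w n) * u n) * H w ∂(Q m) =
        (∫ a, g a ^ 2 ∂m) / 2 * ∑ n ∈ Icc 1 N, D n * u n := by
      rw [Finset.mul_sum]
      refine Finset.sum_congr rfl fun n hn ↦ ?_
      have e : ∀ w : Wd, (g (w n) * u n) * H w = u n * (g (w n) * H w) := fun w ↦ by ring
      simp_rw [e]
      rw [integral_const_mul, hmom n hn]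
      ring
    rw [e1, hc]
    linarith
  have hHi : Integrable H (Q m) := by
    have := hmulb (fun _ ↦ 1) measurable_const 1 (by simp)
    simpa using this
  have hnn : ∀ w, 0 ≤ (c - F w) * H w := fun w ↦
    mul_nonneg (sub_nonneg.mpr (hFc w).le) (hHb w).1
  have hint : Integrable (fun w ↦ (c - F w) * H w) (Q m) := by
    simp_rw [sub_mul]
    exact (hHi.const_mul c).sub hFHi
  have hle : ∫ w, (c - F w) * H w ∂(Q m) ≤ 0 := by
    simp_rw [sub_mul]
    rw [integral_sub (hHi.const_mul c) hFHi, integral_const_mul, hH1]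
    linarith
  have h0 : ∫ w, (c - F w) * H w ∂(Q m) = 0 := le_antisymm hle (integral_nonneg hnn)
  rw [integral_eq_zero_iff_of_nonneg hnn hint] at h0
  have hH0 : H =ᵐ[Q m] 0 := by
    filter_upwards [h0] with w hw
    exact (mul_eq_zero.mp hw).resolve_left (sub_pos.mpr (hFc w)).ne'
  have h1 : ∫ w, H w ∂(Q m) = 0 := by
    rw [integral_congr_ae hH0]
    simp
  rw [hH1] at h1
  exact one_ne_zero h1

end

end Pool.Agent.Helper44.MB
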